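import Pool.Agent.Helper48.FB.Defs

/-!
# FB-9 (A7b): the expected number of sums of the filler with the world
-/

set_option autoImplicit false

namespace Pool.Agent.Helper61.FB

open Finset
open Pool.Agent.Helper53.WR
open Pool.Agent.Helper48.FB

lemma sum_pow_half (m : ℕ) : ∑ l ∈ range (2 * m), (2 : ℝ) ^ (l - l / 2) ≤ 3 * 2 ^ m := by
  induction m with
  | zero => simp
  | succ m ih =>
    rw [show 2 * (m + 1) = 2 * m + 1 + 1 by ring, sum_range_succ, sum_range_succ]
    have h1 : 2 * m - 2 * m / 2 = m := by omega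
    have h2 : 2 * m + 1 - (2 * m + 1) / 2 = m + 1 := by omega
    rw [h1, h2, pow_succ]
    linarith

lemma dens_le_of_log {L x l : ℕ} (hx : 2 ^ l ≤ x) : dens L x ≤ 4 * √L / 2 ^ (l / 2) := by
  have hpos : (0 : ℝ) < 2 ^ (l / 2) := by positivity
  have h1 : ((2 : ℝ) ^ (l / 2)) ^ 2 ≤ x + 1 := by
    have : (2 ^ (l / 2)) ^ 2 ≤ x + 1 := by
      rw [← pow_mul]
      calc 2 ^ (l / 2 * 2) ≤ 2 ^ l := Nat.pow_le_pow_right (by norm_num) (by omega)
        _ ≤ x + 1 := by omega
    exact_mod_cast this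
  calc dens L x ≤ √(16 * L / (x + 1)) := min_le_right _ _
    _ ≤ √(16 * L / ((2 : ℝ) ^ (l / 2)) ^ 2) := by
        apply Real.sqrt_le_sqrt
        apply div_le_div_of_nonneg_left (by positivity) (by positivity) h1
    _ = 4 * √L / 2 ^ (l / 2) := by
        rw [show (16 * (L : ℝ) / ((2 : ℝ) ^ (l / 2)) ^ 2) = (4 / 2 ^ (l / 2)) ^ 2 * L by
          field_simp; ring, Real.sqrt_mul (by positivity), Real.sqrt_sq (by positivity)]
        ring

/-- FB-A7b -/
theorem mean_W {a u e t κ w : ℕ → ℕ} (h : FTow a u e t κ w) (k n : ℕ) (W : Finset ℕ)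
    (hmid : ∀ y h', 2 ^ (4 * a k + 4) ≤ h' → h' ≤ 2 ^ (4 * a k + thT u e k + 13) →
      (win W y h').card ^ 2 * 2 ^ (4 * a k + thT u e k) ≤ 2 ^ 57 * h' ^ 2 * Fs u k) :
    ∑ x ∈ (range (2 ^ LR a u e k)).filter (fun x => 2 ^ zR a u k ≤ x ∧ x ≤ n ∧ n - x ∈ W),
      dens (LR a u e k) x ≤ 2 ^ 54 * a k := by
  have he := h.tow.e300 k
  have heu := h.tow.eu k
  have hua := h.tow.ua k
  have huu := h.tow.uu k
  have h42 := h.u42 k
  obtain ⟨M, hM⟩ : ∃ M, M = 2 * a k + 4 * u k + 32 * e k := ⟨_, rfl⟩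
  have hLR : LR a u e k = 2 * (M + 6) := by simp only [LR, thT]; omega
  have hzR : 4 * a k + 4 ≤ zR a u k := by simp only [zR]; omega
  have h2M : 4 * a k + thT u e k = 2 * M := by simp only [thT]; omega
  have hLR5 : LR a u e k ≤ 5 * a k := by simp only [LR, thT]; omega
  have hFs : Fs u k ≤ 2 ^ 26 * a k := by
    have h1 : laT u k + 1 ≤ 14 * u k := by simp only [laT]; omega
    calc Fs u k = 2 ^ 64 * (laT u k + 1) := rfl
      _ ≤ 2 ^ 64 * (14 * u k) := Nat.mul_le_mul_left _ h1
      _ = 14 * 2 ^ 22 * (2 ^ 42 * u k) := by ring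
      _ ≤ 14 * 2 ^ 22 * a k := Nat.mul_le_mul_left _ h42
      _ ≤ 2 ^ 26 * a k := by
          apply Nat.mul_le_mul_right; norm_num
  set F := (range (2 ^ LR a u e k)).filter (fun x => 2 ^ zR a u k ≤ x ∧ x ≤ n ∧ n - x ∈ W)
    with hF
  obtain ⟨Q, hQ⟩ : ∃ Q : ℝ, Q = 2 ^ 57 * Fs u k := ⟨_, rfl⟩
  have hQ0 : 0 ≤ Q := by rw [hQ]; positivity
  obtain ⟨G, hG⟩ : ∃ G : ℝ, G = √Q := ⟨_, rfl⟩
  have hG0 : 0 ≤ G := by rw [hG]; positivity
  -- the contribution of one dyadic block
  have hblock : ∀ l ∈ range (2 * (M + 6)),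
      ∑ x ∈ F.filter (fun x => Nat.log 2 x = l), dens (LR a u e k) x ≤
        (4 * √(LR a u e k) * G / 2 ^ M) * 2 ^ (l - l / 2) := by
    intro l hl
    rw [mem_range] at hl
    have hnn : 0 ≤ (4 * √(LR a u e k) * G / 2 ^ M) * (2 : ℝ) ^ (l - l / 2) := by positivity
    by_cases hlz : l < zR a u k
    · have hem : F.filter (fun x => Nat.log 2 x = l) = ∅ := by
        rw [filter_eq_empty_iff]
        intro x hx hlog
        rw [hF, mem_filter] at hx
        have : zR a u k ≤ Nat.log 2 x := Nat.le_log_of_pow_le (by norm_num) hx.2.1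
        omega
      rw [hem, sum_empty]
      exact hnn
    · push Not at hlz
      have hcard : (F.filter (fun x => Nat.log 2 x = l)).card ≤
          (win W (n + 1 - 2 ^ (l + 1)) (2 ^ l)).card := by
        apply card_le_card_of_injOn (fun x => n - x)
        · intro x hx
          simp only [hF, coe_filter, mem_filter, mem_range, Set.mem_ofPred_eq] at hx
          obtain ⟨⟨hx1, hx2, hx3, hx4⟩, hx5⟩ := hx
          have hx0 : x ≠ 0 := by
            intro h0
            rw [h0] at hx2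
            have : 0 < 2 ^ zR a u k := by positivity
            omega
          have hlo : 2 ^ l ≤ x := by rw [← hx5]; exact Nat.pow_log_le_self 2 hx0
          have hhi : x < 2 ^ (l + 1) := by
            rw [← hx5]; exact Nat.lt_pow_succ_log_self (by norm_num) x
          simp only [win, coe_filter, Set.mem_ofPred_eq]
          refine ⟨hx4, ?_, ?_⟩
          · omega
          · rw [pow_succ] at hhi ⊢
            omega
        · intro x hx y hy hxy
          simp only [hF, coe_filter, mem_filter, mem_range, Set.mem_ofPred_eq] at hx hy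
          simp only at hxy
          omega
      have hm := hmid (n + 1 - 2 ^ (l + 1)) (2 ^ l)
        (Nat.pow_le_pow_right (by norm_num) (by omega))
        (Nat.pow_le_pow_right (by norm_num) (by omega))
      rw [h2M] at hm
      set c := (win W (n + 1 - 2 ^ (l + 1)) (2 ^ l)).card with hc
      have hm' : ((c : ℝ) * 2 ^ M) ^ 2 ≤ Q * ((2 : ℝ) ^ l) ^ 2 := by
        rw [hQ]
        have : ((c ^ 2 * 2 ^ (2 * M) : ℕ) : ℝ) ≤ ((2 ^ 57 * (2 ^ l) ^ 2 * Fs u k : ℕ) : ℝ) := by
          exact_mod_cast hm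
        push_cast at this
        calc ((c : ℝ) * 2 ^ M) ^ 2 = (c : ℝ) ^ 2 * 2 ^ (2 * M) := by
              rw [mul_pow, ← pow_mul, mul_comm M 2]
          _ ≤ _ := this
          _ = _ := by ring
      have hm'' : (c : ℝ) * 2 ^ M ≤ G * 2 ^ l := by
        have h1 := Real.sqrt_le_sqrt hm'
        rw [Real.sqrt_sq (by positivity), Real.sqrt_mul hQ0, Real.sqrt_sq (by positivity),
          ← hG] at h1
        exact h1
      have hcc : (c : ℝ) ≤ G * 2 ^ l / 2 ^ M := by
        rw [le_div_iff₀ (by positivity)]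
        exact hm''
      calc ∑ x ∈ F.filter (fun x => Nat.log 2 x = l), dens (LR a u e k) x
          ≤ ∑ x ∈ F.filter (fun x => Nat.log 2 x = l), (4 * √(LR a u e k) / 2 ^ (l / 2)) := by
            apply sum_le_sum
            intro x hx
            rw [mem_filter, hF, mem_filter] at hx
            apply dens_le_of_log
            rw [← hx.2]
            apply Nat.pow_log_le_self
            intro h0
            rw [h0] at hx
            have : 0 < 2 ^ zR a u k := by positivity
            omega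
        _ = (F.filter (fun x => Nat.log 2 x = l)).card * (4 * √(LR a u e k) / 2 ^ (l / 2)) := by
            rw [sum_const, nsmul_eq_mul]
        _ ≤ (G * 2 ^ l / 2 ^ M) * (4 * √(LR a u e k) / 2 ^ (l / 2)) := by
            apply mul_le_mul_of_nonneg_right _ (by positivity)
            exact le_trans (by exact_mod_cast hcard) hcc
        _ = (4 * √(LR a u e k) * G / 2 ^ M) * 2 ^ (l - l / 2) := by
            have : (2 : ℝ) ^ l = 2 ^ (l - l / 2) * 2 ^ (l / 2) := by
              rw [← pow_add]; congr 1; omega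
            rw [this]
            field_simp
  have hmaps : ∀ x ∈ F, Nat.log 2 x ∈ range (2 * (M + 6)) := by
    intro x hx
    rw [hF, mem_filter, mem_range] at hx
    rw [mem_range, ← hLR]
    have hx0 : x ≠ 0 := by
      intro h0
      rw [h0] at hx
      have : 0 < 2 ^ zR a u k := by positivity
      omega
    exact Nat.log_lt_of_lt_pow hx0 hx.1
  rw [← sum_fiberwise_of_maps_to hmaps]
  calc ∑ l ∈ range (2 * (M + 6)), ∑ x ∈ F.filter (fun x => Nat.log 2 x = l), dens (LR a u e k) x
      ≤ ∑ l ∈ range (2 * (M + 6)), (4 * √(LR a u e k) * G / 2 ^ M) * (2 : ℝ) ^ (l - l / 2) :=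
        sum_le_sum hblock
    _ = (4 * √(LR a u e k) * G / 2 ^ M) * ∑ l ∈ range (2 * (M + 6)), (2 : ℝ) ^ (l - l / 2) := by
        rw [mul_sum]
    _ ≤ (4 * √(LR a u e k) * G / 2 ^ M) * (3 * 2 ^ (M + 6)) :=
        mul_le_mul_of_nonneg_left (sum_pow_half _) (by positivity)
    _ = 768 * (√(LR a u e k) * G) := by
        rw [pow_add]
        field_simp
        ring
    _ ≤ 768 * (2 ^ 43 * a k) := by
        apply mul_le_mul_of_nonneg_left _ (by norm_num)
        rw [hG, ← Real.sqrt_mul (by positivity)]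
        apply Real.sqrt_le_iff.mpr
        refine ⟨by positivity, ?_⟩
        rw [hQ]
        have h1 : ((LR a u e k : ℕ) : ℝ) ≤ 5 * a k := by exact_mod_cast hLR5
        have h2 : ((Fs u k : ℕ) : ℝ) ≤ 2 ^ 26 * a k := by exact_mod_cast hFs
        calc ((LR a u e k : ℕ) : ℝ) * (2 ^ 57 * Fs u k)
            ≤ (5 * a k) * (2 ^ 57 * (2 ^ 26 * a k)) := by gcongr
          _ = 5 * 2 ^ 83 * (a k : ℝ) ^ 2 := by ring
          _ ≤ 2 ^ 86 * (a k : ℝ) ^ 2 := by
              apply mul_le_mul_of_nonneg_right _ (by positivity)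
              norm_num
          _ = (2 ^ 43 * (a k : ℝ)) ^ 2 := by ring
    _ ≤ 2 ^ 54 * a k := by
        have : (0 : ℝ) ≤ a k := by positivity
        nlinarith

end Pool.Agent.Helper61.FB
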